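import Pool.Agent.H85.PS.Targets

/-!
Row MVP of the board psv_modules: evaluation of a polynomial as a sum over the exponents of
total degree at most `D`.
-/

set_option autoImplicit false

open Polynomial Finset Pool.Agent.H85.PS

namespace Pool.Agent.H25.PSV

theorem mem_II {s D : ℕ} (e : Fin s → ℕ) : e ∈ II s D ↔ ∑ k, e k ≤ D := by
  unfold II
  rw [Finset.mem_filter, Fintype.mem_piFinset]
  constructor
  · exact fun h => h.2
  · intro h
    refine ⟨fun k => ?_, h⟩
    rw [Finset.mem_range]
    have h1 : e k ≤ ∑ j, e j := Finset.single_le_sum (fun j _ => Nat.zero_le _) (Finset.mem_univ k)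
    omega

theorem pf_MVP : T_MVP := by
  intro s D P hP
  have key : ∀ m ∈ P.support, (Finsupp.equivFunOnFinite m) ∈ II s D := by
    intro m hm
    rw [mem_II]
    have h1 := MvPolynomial.le_totalDegree hm
    rw [Finsupp.sum_fintype _ _ (fun _ => rfl)] at h1
    exact h1.trans hP
  constructor
  · intro y
    rw [MvPolynomial.aeval_def, MvPolynomial.eval₂_eq']
    have h2 : P.support ⊆ (II s D).map (Finsupp.equivFunOnFinite.symm.toEmbedding) := by
      intro m hm
      rw [Finset.mem_map]
      exact ⟨_, key m hm, by simp⟩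
    rw [Finset.sum_subset h2, Finset.sum_map]
    · refine Finset.sum_congr rfl fun e _ => ?_
      simp
    · intro m _ hm
      rw [MvPolynomial.notMem_support_iff.mp hm]
      simp
  · intro h0
    obtain ⟨m, hm⟩ := MvPolynomial.ne_zero_iff.mp h0
    refine ⟨Finsupp.equivFunOnFinite m, key m (MvPolynomial.mem_support_iff.mpr hm), ?_⟩
    simpa using hm

end Pool.Agent.H25.PSV
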