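import Pool.Agent.H85.PS.Targets
import Pool.Agent.H25.PSV.MVP

/-!
Row GID of the board psv_modules: the values of the forms are Taylor coefficients.
-/

set_option autoImplicit false

open Polynomial Finset Pool.Agent.H85.PS

namespace Pool.Agent.H25.PSV

theorem expand_prod {R : Type*} [CommRing R] {s D : ℕ} (c x : Fin s → R) (e : Fin s → ℕ)
    (he : e ∈ II s D) : ∏ k, (c k + x k) ^ e k =
    ∑ f ∈ II s D, (∏ k, c k ^ f k) *
      ((∏ k, ((e k).choose (f k) : R)) * ∏ k, x k ^ (e k - f k)) := by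
  have h1 : ∏ k, (c k + x k) ^ e k =
      ∏ k, ∑ j ∈ Finset.range (e k + 1), c k ^ j * x k ^ (e k - j) * ((e k).choose j : R) :=
    Finset.prod_congr rfl fun k _ => add_pow _ _ _
  rw [h1, Finset.prod_univ_sum]
  have hsub : (Fintype.piFinset fun k => Finset.range (e k + 1)) ⊆ II s D := by
    intro f hf
    rw [Fintype.mem_piFinset] at hf
    rw [mem_II] at he ⊢
    refine le_trans (Finset.sum_le_sum fun k _ => ?_) he
    have := Finset.mem_range.mp (hf k)
    omega
  rw [← Finset.sum_subset hsub]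
  · refine Finset.sum_congr rfl fun f _ => ?_
    rw [Finset.prod_mul_distrib, Finset.prod_mul_distrib]
    ring
  · intro f _ hf
    rw [Fintype.mem_piFinset] at hf
    push Not at hf
    obtain ⟨k, hk⟩ := hf
    rw [Finset.mem_range] at hk
    have h2 : ∏ k, ((e k).choose (f k) : R) = 0 :=
      Finset.prod_eq_zero (Finset.mem_univ k) (by rw [Nat.choose_eq_zero_of_lt (by omega)]; simp)
    rw [h2]
    ring

theorem pf_GID (h1 : T_TAR) : T_GID := by
  intro s D b z0 A hb i
  have h2 : iteratedDeriv i (RR b D A) z0 / (i.factorial : ℂ) =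
      PowerSeries.coeff i (Tay (z0 : ℂ) (RR b D A)) := by
    simp only [Tay, PowerSeries.coeff_mk]
  rw [h2, h1 s D b z0 A hb]
  have h3 : ∀ e ∈ II s D,
      PowerSeries.map (algebraMap ℚ ℂ) ((taylor z0 (A e) : ℚ[X]) : PowerSeries ℚ) *
      ∏ k, (PowerSeries.C (Complex.log (1 + (b k : ℂ) * z0)) +
        PowerSeries.map (algebraMap ℚ ℂ) (lam (b k) z0)) ^ e k =
      ∑ f ∈ II s D, PowerSeries.C (∏ k, Complex.log (1 + (b k : ℂ) * z0) ^ f k) *
        PowerSeries.map (algebraMap ℚ ℂ) (((taylor z0 (A e) : ℚ[X]) : PowerSeries ℚ) *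
          (∏ k, ((e k).choose (f k) : PowerSeries ℚ)) * ∏ k, lam (b k) z0 ^ (e k - f k)) := by
    intro e he
    rw [expand_prod _ _ e he, Finset.mul_sum]
    refine Finset.sum_congr rfl fun f _ => ?_
    simp only [map_mul, map_prod, map_pow, map_natCast]
    ring
  rw [Finset.sum_congr rfl h3, Finset.sum_comm, map_sum]
  refine Finset.sum_congr rfl fun f _ => ?_
  rw [← Finset.mul_sum, PowerSeries.coeff_C_mul, ← map_sum, PowerSeries.coeff_map, mul_comm]
  rfl

end Pool.Agent.H25.PSV
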