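import Pool.Agent.H85.PS.Targets

/-!
Row TAR of the board psv_modules: the Taylor series of the auxiliary function.
-/

set_option autoImplicit false

open Polynomial Finset Pool.Agent.H85.PS

namespace Pool.Agent.H25.PSV

theorem Tay_zero (z0 : ℂ) : Tay z0 0 = 0 := by
  ext j
  simp only [Tay, PowerSeries.coeff_mk, map_zero]
  have : iteratedDeriv j (0 : ℂ → ℂ) z0 = 0 := by
    rw [show (0 : ℂ → ℂ) = fun _ => (0 : ℂ) from rfl, iteratedDeriv_const]
    split_ifs <;> rfl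
  rw [this, zero_div]

theorem Tay_one (z0 : ℂ) : Tay z0 1 = 1 := by
  ext j
  simp only [Tay, PowerSeries.coeff_mk, PowerSeries.coeff_one]
  rw [show (1 : ℂ → ℂ) = fun _ => (1 : ℂ) from rfl, iteratedDeriv_const]
  split_ifs with h
  · subst h; simp
  · simp

theorem Tay_sum (h1 : T_TAM) (z0 : ℂ) {ι : Type*} (S : Finset ι) (F : ι → ℂ → ℂ)
    (hF : ∀ i ∈ S, AnalyticAt ℂ (F i) z0) : Tay z0 (∑ i ∈ S, F i) = ∑ i ∈ S, Tay z0 (F i) := by
  classical
  induction S using Finset.induction_on with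
  | empty => simp [Tay_zero]
  | insert a S ha ih =>
    rw [Finset.sum_insert ha, Finset.sum_insert ha, (h1 z0 _ _ (hF a (Finset.mem_insert_self a S))
      ?_).2, ih fun i hi => hF i (Finset.mem_insert_of_mem hi)]
    have := Finset.analyticAt_sum (f := F) S (fun i hi => hF i (Finset.mem_insert_of_mem hi))
    exact this

theorem Tay_prod (h1 : T_TAM) (z0 : ℂ) {ι : Type*} (S : Finset ι) (F : ι → ℂ → ℂ)
    (hF : ∀ i ∈ S, AnalyticAt ℂ (F i) z0) : Tay z0 (∏ i ∈ S, F i) = ∏ i ∈ S, Tay z0 (F i) := by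
  classical
  induction S using Finset.induction_on with
  | empty => simp [Tay_one]
  | insert a S ha ih =>
    rw [Finset.prod_insert ha, Finset.prod_insert ha, (h1 z0 _ _ (hF a (Finset.mem_insert_self a S))
      ?_).1, ih fun i hi => hF i (Finset.mem_insert_of_mem hi)]
    have := Finset.analyticAt_prod (f := F) S (fun i hi => hF i (Finset.mem_insert_of_mem hi))
    exact this

theorem Tay_pow (h1 : T_TAM) (z0 : ℂ) (F : ℂ → ℂ) (hF : AnalyticAt ℂ F z0) (n : ℕ) :
    Tay z0 (F ^ n) = Tay z0 F ^ n := by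
  induction n with
  | zero => simp [Tay_one]
  | succ n ih => rw [pow_succ, pow_succ, (h1 z0 _ _ (hF.pow n) hF).1, ih]

theorem pf_TAR (h1 : T_TAM) (h2 : T_TAP) (h3 : T_TAL) : T_TAR := by
  intro s D b z0 A hb
  have hlog : ∀ k, AnalyticAt ℂ (fun z : ℂ => Complex.log (1 + (b k : ℂ) * z)) (z0 : ℂ) := by
    intro k
    have h4 : AnalyticAt ℂ (fun z : ℂ => 1 + (b k : ℂ) * z) (z0 : ℂ) :=
      analyticAt_const.add (analyticAt_const.mul analyticAt_id)
    refine h4.clog ?_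
    have h5 : (1 + (b k : ℂ) * (z0 : ℂ)) = (((1 + b k * z0 : ℚ) : ℝ) : ℂ) := by push_cast; ring
    rw [h5, Complex.ofReal_mem_slitPlane]
    exact_mod_cast hb k
  have hpol : ∀ p : ℚ[X], AnalyticAt ℂ (fun z : ℂ => aeval z p) (z0 : ℂ) := by
    intro p
    exact AnalyticAt.aeval_polynomial analyticAt_id p
  have hR : RR b D A = ∑ e ∈ II s D, (fun z : ℂ => aeval z (A e)) *
      ∏ k, (fun z : ℂ => Complex.log (1 + (b k : ℂ) * z)) ^ e k := by
    funext z
    simp only [RR, Finset.sum_apply, Finset.prod_apply, Pi.mul_apply, Pi.pow_apply]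
  have hprod : ∀ e : Fin s → ℕ, AnalyticAt ℂ
      (∏ k, (fun z : ℂ => Complex.log (1 + (b k : ℂ) * z)) ^ e k) (z0 : ℂ) := fun e =>
    Finset.analyticAt_prod _ fun k _ => (hlog k).pow (e k)
  rw [hR, Tay_sum h1 _ _ _ fun e _ => (hpol (A e)).mul (hprod e)]
  refine Finset.sum_congr rfl fun e _ => ?_
  rw [(h1 _ _ _ (hpol (A e)) (hprod e)).1, h2, Tay_prod h1 _ _ _ fun k _ => (hlog k).pow (e k)]
  congr 1
  refine Finset.prod_congr rfl fun k _ => ?_
  rw [Tay_pow h1 _ _ (hlog k), h3 _ _ (hb k)]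

end Pool.Agent.H25.PSV
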